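import Mathlib

/-!
The earth mover's distance between the two level sets of the tribes function of width `w`
is at least `w / 2`, hence unbounded.
-/

namespace Pool.Agent.Results.MP_b6f08f_co.TribesUnbounded

/-- `q` is a coupling of `μ` and `ν` (nonnegative, with marginals `μ` and `ν`). -/
def IsCoupling {X : Type} [Fintype X] (q : X → X → ℝ) (μ ν : X → ℝ) : Prop :=
  (∀ x y, 0 ≤ q x y) ∧ (∀ x, ∑ y, q x y = μ x) ∧ (∀ y, ∑ x, q x y = ν y)

/-- The transport cost of a coupling on the cube, for the Hamming distance. -/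
noncomputable def cost {n : ℕ} (q : (Fin n → Bool) → (Fin n → Bool) → ℝ) : ℝ :=
  ∑ x, ∑ y, (hammingDist x y : ℝ) * q x y

/-- The earth mover's distance on the cube. -/
noncomputable def W1 {n : ℕ} (μ ν : (Fin n → Bool) → ℝ) : ℝ :=
  sInf {c : ℝ | ∃ q, IsCoupling q μ ν ∧ c = cost q}

/-- The uniform probability measure on a finite set `S`. -/
noncomputable def unif {X : Type} [DecidableEq X] (S : Finset X) (x : X) : ℝ :=
  if x ∈ S then 1 / (S.card : ℝ) else 0

/-- The tribes function: the coordinates `Fin (s * w)` are split into `s` consecutive blocks of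
size `w` (the coordinate `j` of block `i` is `w * i + j`), and some block is all ones. -/
def Tribes (s w : ℕ) (x : Fin (s * w) → Bool) : Prop :=
  ∃ i : Fin s, ∀ j : Fin w, x (finProdFinEquiv (i, j)) = true

instance (s w : ℕ) : DecidablePred (Tribes s w) := fun x => by
  unfold Tribes; infer_instance

/-- The set `A` where the tribes function is `1`. -/
def A (s w : ℕ) : Finset (Fin (s * w) → Bool) := Finset.univ.filter (Tribes s w)

/-- The set `Z` where the tribes function is `0`. -/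
def Z (s w : ℕ) : Finset (Fin (s * w) → Bool) := Finset.univ.filter fun x => ¬ Tribes s w x

/-- The Hamming weight. -/
def wt {n : ℕ} (x : Fin n → Bool) : ℝ := ∑ i, if x i = true then (1 : ℝ) else 0

theorem wt_sub_le {n : ℕ} (x y : Fin n → Bool) : wt y - wt x ≤ (hammingDist x y : ℝ) := by
  unfold wt hammingDist
  rw [Finset.card_filter, ← Finset.sum_sub_distrib, Nat.cast_sum]
  refine Finset.sum_le_sum fun i _ => ?_
  cases hx : x i <;> cases hy : y i <;> simp

theorem cost_ge {n : ℕ} {q : (Fin n → Bool) → (Fin n → Bool) → ℝ} {μ ν : (Fin n → Bool) → ℝ}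
    (h : IsCoupling q μ ν) : ∑ y, wt y * ν y - ∑ x, wt x * μ x ≤ cost q := by
  have h1 : ∑ y, wt y * ν y = ∑ x, ∑ y, wt y * q x y := by
    rw [Finset.sum_comm]
    refine Finset.sum_congr rfl fun y _ => ?_
    rw [← h.2.2 y, Finset.mul_sum]
  have h2 : ∑ x, wt x * μ x = ∑ x, ∑ y, wt x * q x y := by
    refine Finset.sum_congr rfl fun x _ => ?_
    rw [← h.2.1 x, Finset.mul_sum]
  rw [h1, h2, ← Finset.sum_sub_distrib]
  refine Finset.sum_le_sum fun x _ => ?_
  rw [← Finset.sum_sub_distrib]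
  refine Finset.sum_le_sum fun y _ => ?_
  rw [← sub_mul]
  exact mul_le_mul_of_nonneg_right (wt_sub_le x y) (h.1 x y)

theorem unif_nonneg {X : Type} [DecidableEq X] (S : Finset X) (x : X) : 0 ≤ unif S x := by
  unfold unif
  split_ifs
  · positivity
  · exact le_rfl

theorem sum_unif {X : Type} [DecidableEq X] [Fintype X] {S : Finset X} (hS : S.Nonempty) :
    ∑ x, unif S x = 1 := by
  unfold unif
  rw [Finset.sum_ite_mem, Finset.univ_inter, Finset.sum_const, nsmul_eq_mul]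
  have : (S.card : ℝ) ≠ 0 := Nat.cast_ne_zero.2 (Finset.card_ne_zero.2 hS)
  field_simp

theorem sum_mul_unif {X : Type} [DecidableEq X] [Fintype X] (S : Finset X) (f : X → ℝ) :
    ∑ x, f x * unif S x = (∑ x ∈ S, f x) / (S.card : ℝ) := by
  unfold unif
  simp only [mul_ite, mul_zero]
  rw [Finset.sum_ite_mem, Finset.univ_inter, Finset.sum_div]
  refine Finset.sum_congr rfl fun x _ => ?_
  ring

theorem W1_ge {n : ℕ} {S T : Finset (Fin n → Bool)} (hS : S.Nonempty) (hT : T.Nonempty) {c : ℝ}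
    (h : c ≤ (∑ y ∈ T, wt y) / (T.card : ℝ) - (∑ x ∈ S, wt x) / (S.card : ℝ)) :
    c ≤ W1 (unif S) (unif T) := by
  refine le_csInf ⟨_, fun x y => unif S x * unif T y, ⟨fun x y => ?_, fun x => ?_, fun y => ?_⟩,
    rfl⟩ ?_
  · exact mul_nonneg (unif_nonneg S x) (unif_nonneg T y)
  · rw [← Finset.mul_sum, sum_unif hT, mul_one]
  · rw [← Finset.sum_mul, sum_unif hS, one_mul]
  · rintro _ ⟨q, hq, rfl⟩
    have := cost_ge hq
    rw [sum_mul_unif, sum_mul_unif] at this
    exact h.trans this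

/-- Splitting a point of the cube into its blocks. -/
def blocks (s w : ℕ) : (Fin (s * w) → Bool) ≃ (Fin s → Fin w → Bool) :=
  (Equiv.arrowCongr finProdFinEquiv.symm (Equiv.refl Bool)).trans (Equiv.curry _ _ _)

theorem blocks_apply (s w : ℕ) (x : Fin (s * w) → Bool) (i : Fin s) (j : Fin w) :
    blocks s w x i j = x (finProdFinEquiv (i, j)) := rfl

/-- Weight of a block. -/
def bwt {w : ℕ} (b : Fin w → Bool) : ℝ := ∑ j, if b j = true then (1 : ℝ) else 0

theorem wt_eq_blocks (s w : ℕ) (x : Fin (s * w) → Bool) :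
    wt x = ∑ i, bwt (blocks s w x i) := by
  unfold wt bwt
  rw [← Equiv.sum_comp (finProdFinEquiv (m := s) (n := w)), Fintype.sum_prod_type]
  rfl

theorem sum_piFinset (s w : ℕ) (B : Finset (Fin w → Bool)) :
    ∑ x ∈ Fintype.piFinset (fun _ : Fin s => B), ∑ i, bwt (x i) =
      (s : ℝ) * ((B.card : ℝ) ^ (s - 1) * ∑ b ∈ B, bwt b) := by
  rw [Finset.sum_comm]
  simp_rw [Fintype.sum_piFinset_apply (fun b => bwt b) B]
  rw [Finset.sum_const, Finset.card_univ, Fintype.card_fin, nsmul_eq_mul, nsmul_eq_mul]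
  push_cast
  rfl

theorem sum_bwt (w : ℕ) : ∑ b : Fin w → Bool, bwt b = (w : ℝ) * 2 ^ w / 2 := by
  have h : ∑ b : Fin w → Bool, bwt b = ∑ b : Fin w → Bool, bwt (fun j => !b j) := by
    refine (Equiv.sum_comp (Equiv.arrowCongr (Equiv.refl (Fin w)) Equiv.boolNot) _).symm.trans ?_
    rfl
  have h2 : ∑ b : Fin w → Bool, bwt b + ∑ b : Fin w → Bool, bwt (fun j => !b j) =
      (w : ℝ) * 2 ^ w := by
    rw [← Finset.sum_add_distrib]
    have : ∀ b : Fin w → Bool, bwt b + bwt (fun j => !b j) = (w : ℝ) := by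
      intro b
      unfold bwt
      rw [← Finset.sum_add_distrib]
      rw [Finset.sum_congr rfl (g := fun _ => (1 : ℝ))]
      · simp
      · intro j _
        rcases Bool.eq_false_or_eq_true (b j) with h | h <;> simp [h]
    simp_rw [this]
    simp
    ring
  linarith

theorem Z_eq (s w : ℕ) : (Z s w).map (blocks s w).toEmbedding =
    Fintype.piFinset (fun _ : Fin s => Finset.univ.erase (fun _ : Fin w => true)) := by
  ext x
  rw [Finset.mem_map_equiv, Z, Finset.mem_filter, Fintype.mem_piFinset]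
  simp only [Finset.mem_univ, true_and, Finset.mem_erase, and_true]
  have : ∀ i j, (blocks s w).symm x (finProdFinEquiv (i, j)) = x i j := by
    intro i j
    have := congrFun (congrFun ((blocks s w).apply_symm_apply x) i) j
    rwa [blocks_apply] at this
  unfold Tribes
  simp only [this]
  push Not
  refine forall_congr' fun i => ?_
  rw [Ne, funext_iff]
  push Not
  rfl

theorem card_block_erase (w : ℕ) :
    (((Finset.univ.erase (fun _ : Fin w => true)).card : ℕ) : ℝ) = 2 ^ w - 1 := by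
  rw [Finset.card_erase_of_mem (Finset.mem_univ _), Finset.card_univ, Fintype.card_fun,
    Fintype.card_bool, Fintype.card_fin]
  have : 1 ≤ 2 ^ w := Nat.one_le_two_pow
  push_cast [this]
  ring

theorem card_Z (s w : ℕ) : ((Z s w).card : ℝ) = (2 ^ w - 1) ^ s := by
  rw [← Finset.card_map (blocks s w).toEmbedding, Z_eq, Fintype.card_piFinset_const,
    Nat.cast_pow, card_block_erase]

theorem sum_Z (s w : ℕ) : ∑ x ∈ Z s w, wt x =
    (s : ℝ) * ((2 ^ w - 1) ^ (s - 1) * ((w : ℝ) * 2 ^ w / 2 - w)) := by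
  have h1 : ∑ x ∈ Z s w, wt x = ∑ x ∈ (Z s w).map (blocks s w).toEmbedding, ∑ i, bwt (x i) := by
    rw [Finset.sum_map]
    exact Finset.sum_congr rfl fun x _ => wt_eq_blocks s w x
  have h2 : ∑ b ∈ Finset.univ.erase (fun _ : Fin w => true), bwt b = (w : ℝ) * 2 ^ w / 2 - w := by
    rw [Finset.sum_erase_eq_sub (Finset.mem_univ _), sum_bwt]
    simp [bwt]
  rw [h1, Z_eq, sum_piFinset, card_block_erase, h2]

theorem sum_all (s w : ℕ) (hs : 1 ≤ s) : ∑ x : Fin (s * w) → Bool, wt x =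
    (s : ℝ) * w / 2 * (2 ^ w) ^ s := by
  have h1 : ∑ x : Fin (s * w) → Bool, wt x = ∑ x : Fin s → Fin w → Bool, ∑ i, bwt (x i) := by
    rw [← Equiv.sum_comp (blocks s w)]
    exact Finset.sum_congr rfl fun x _ => wt_eq_blocks s w x
  have h2 := sum_piFinset s w Finset.univ
  rw [Fintype.piFinset_univ, sum_bwt, Finset.card_univ, Fintype.card_fun, Fintype.card_bool,
    Fintype.card_fin] at h2
  rw [h1, h2]
  obtain ⟨t, rfl⟩ : ∃ t, s = t + 1 := ⟨s - 1, by omega⟩
  push_cast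
  rw [pow_succ]
  ring

theorem sum_A_add (s w : ℕ) : ∑ x ∈ A s w, wt x + ∑ x ∈ Z s w, wt x =
    ∑ x : Fin (s * w) → Bool, wt x :=
  Finset.sum_filter_add_sum_filter_not _ _ _

theorem card_A_add (s w : ℕ) : ((A s w).card : ℝ) + ((Z s w).card : ℝ) = (2 ^ w) ^ s := by
  have h := Finset.card_filter_add_card_filter_not (s := (Finset.univ : Finset (Fin (s * w) → Bool)))
    (Tribes s w)
  have h' : (A s w).card + (Z s w).card = 2 ^ (s * w) := by
    unfold A Z
    rw [h, Finset.card_univ, Fintype.card_fun, Fintype.card_bool, Fintype.card_fin]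
  have h2 : ((A s w).card : ℝ) + ((Z s w).card : ℝ) = 2 ^ (s * w) := by exact_mod_cast h'
  rw [h2, mul_comm, pow_mul]

/-- The largest `s` with `1 - (1 - 2⁻ʷ)ˢ ≤ 1/2` exists. -/
theorem exists_greatest (w : ℕ) :
    ∃ s, IsGreatest {s : ℕ | 1 - (1 - (1 / 2 : ℝ) ^ w) ^ s ≤ 1 / 2} s := by
  have hlt : (1 - (1 / 2 : ℝ) ^ w) < 1 := by
    have : (0 : ℝ) < (1 / 2 : ℝ) ^ w := by positivity
    linarith
  have hnn : 0 ≤ (1 - (1 / 2 : ℝ) ^ w) := by
    have : (1 / 2 : ℝ) ^ w ≤ 1 := pow_le_one₀ (by norm_num) (by norm_num)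
    linarith
  obtain ⟨k, hk⟩ := exists_pow_lt_of_lt_one (show (0 : ℝ) < 1 / 2 by norm_num) hlt
  have hbdd : ∀ s ∈ {s : ℕ | 1 - (1 - (1 / 2 : ℝ) ^ w) ^ s ≤ 1 / 2}, s ≤ k := by
    intro s hs
    by_contra hks
    push Not at hks
    have h1 : (1 - (1 / 2 : ℝ) ^ w) ^ s ≤ (1 - (1 / 2 : ℝ) ^ w) ^ k :=
      pow_le_pow_of_le_one hnn hlt.le hks.le
    have hs' : 1 - (1 - (1 / 2 : ℝ) ^ w) ^ s ≤ 1 / 2 := hs
    linarith
  have hne : {s : ℕ | 1 - (1 - (1 / 2 : ℝ) ^ w) ^ s ≤ 1 / 2}.Nonempty := ⟨0, by simp⟩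
  exact ⟨_, Nat.sSup_mem hne ⟨k, hbdd⟩, fun s hs => le_csSup ⟨k, hbdd⟩ hs⟩

theorem main_bound {w s : ℕ} (hw : 1 ≤ w)
    (hs : IsGreatest {s : ℕ | 1 - (1 - (1 / 2 : ℝ) ^ w) ^ s ≤ 1 / 2} s) :
    1 ≤ s ∧ (w : ℝ) / 2 ≤ W1 (unif (Z s w)) (unif (A s w)) := by
  have hN2 : (2 : ℝ) ≤ 2 ^ w := by
    calc (2 : ℝ) = 2 ^ 1 := by norm_num
      _ ≤ 2 ^ w := pow_le_pow_right₀ (by norm_num) hw
  have hhalf : (1 / 2 : ℝ) ^ w = 1 / 2 ^ w := by rw [div_pow, one_pow]
  -- the parameter `s` is large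
  have hsbig : 2 ^ w ≤ 2 * s := by
    have hnot : ¬ (1 - (1 - (1 / 2 : ℝ) ^ w) ^ (s + 1) ≤ 1 / 2) := by
      intro h
      have := hs.2 h
      omega
    push Not at hnot
    have hb := one_add_mul_le_pow (a := -(1 / 2 : ℝ) ^ w) (by
      have : (1 / 2 : ℝ) ^ w ≤ 1 := pow_le_one₀ (by norm_num) (by norm_num)
      linarith) (s + 1)
    rw [← sub_eq_add_neg] at hb
    push_cast at hb
    have h1 : (1 : ℝ) / 2 < (s + 1) * (1 / 2 ^ w) := by
      rw [← hhalf]
      nlinarith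
    have h2 : (2 : ℝ) ^ w < 2 * (s + 1) := by
      have hpos : (0 : ℝ) < 2 ^ w := by positivity
      rw [mul_one_div, lt_div_iff₀ hpos] at h1
      linarith
    have h3 : 2 ^ w < 2 * (s + 1) := by exact_mod_cast h2
    obtain ⟨v, rfl⟩ : ∃ v, w = v + 1 := ⟨w - 1, by omega⟩
    rw [pow_succ] at h3 ⊢
    omega
  have hs1 : 1 ≤ s := by
    have : 1 ≤ 2 ^ w := Nat.one_le_two_pow
    omega
  refine ⟨hs1, ?_⟩
  have hsbig' : (2 : ℝ) ^ w ≤ 2 * s := by exact_mod_cast hsbig
  have hZc := card_Z s w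
  have hAc := card_A_add s w
  have hZs := sum_Z s w
  have hAs := sum_A_add s w
  rw [sum_all s w hs1] at hAs
  set N : ℝ := 2 ^ w with hN
  -- `Z` has density at least one half
  have hle : ((A s w).card : ℝ) ≤ ((Z s w).card : ℝ) := by
    have h1 : 1 - (1 - (1 / 2 : ℝ) ^ w) ^ s ≤ 1 / 2 := hs.1
    rw [hhalf] at h1
    have hNpos : (0 : ℝ) < N := by linarith
    have h2 : (1 - 1 / N) ^ s = (N - 1) ^ s / N ^ s := by
      rw [← div_pow]
      congr 1
      field_simp
    rw [h2] at h1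
    have h3 : (1 / 2 : ℝ) ≤ (N - 1) ^ s / N ^ s := by linarith
    rw [le_div_iff₀ (pow_pos hNpos s)] at h3
    linarith
  have hZpos : (0 : ℝ) < (Z s w).card := by
    rw [hZc]
    exact pow_pos (by linarith) s
  have hApos : (0 : ℝ) < (A s w).card := by
    have : (A s w).Nonempty := ⟨fun _ => true, by
      rw [A, Finset.mem_filter]
      exact ⟨Finset.mem_univ _, ⟨0, by omega⟩, fun _ => rfl⟩⟩
    exact_mod_cast Finset.card_pos.2 this
  refine W1_ge (Finset.card_pos.1 (by exact_mod_cast hZpos))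
    (Finset.card_pos.1 (by exact_mod_cast hApos)) ?_
  set a : ℝ := ((A s w).card : ℝ) with ha
  set z : ℝ := ((Z s w).card : ℝ) with hz
  have hN1 : (0 : ℝ) < N - 1 := by linarith
  have hzN : z = (N - 1) ^ (s - 1) * (N - 1) := by
    rw [hZc, ← pow_succ, Nat.sub_add_cancel hs1]
  -- average over `Z`
  have hSZ : ∑ x ∈ Z s w, wt x = ((s : ℝ) * w / 2 - (s : ℝ) * w / (2 * (N - 1))) * z := by
    rw [hZs, hzN]
    field_simp
    ring
  have hSA : ∑ x ∈ A s w, wt x = (s : ℝ) * w / 2 * a + (s : ℝ) * w / (2 * (N - 1)) * z := by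
    have : ∑ x ∈ A s w, wt x = (s : ℝ) * w / 2 * N ^ s - ∑ x ∈ Z s w, wt x := by linarith
    rw [this, hSZ, ← hAc]
    ring
  rw [hSZ, hSA, mul_div_cancel_right₀ _ hZpos.ne', add_div, mul_div_cancel_right₀ _ hApos.ne']
  have hδ : (w : ℝ) / 4 ≤ (s : ℝ) * w / (2 * (N - 1)) := by
    rw [div_le_div_iff₀ (by norm_num) (by linarith)]
    have hw0 : (0 : ℝ) ≤ w := Nat.cast_nonneg w
    nlinarith
  have hδ2 : (s : ℝ) * w / (2 * (N - 1)) ≤ (s : ℝ) * w / (2 * (N - 1)) * z / a := by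
    rw [le_div_iff₀ hApos]
    refine mul_le_mul_of_nonneg_left hle ?_
    positivity
  linarith

/-- For every width `w ≥ 1`, with `s` the largest integer such that
`1 - (1 - 2⁻ʷ)ˢ ≤ 1/2`, the earth mover's distance between the uniform measures on the two
level sets of the tribes function is at least `w / 2`. In particular it is unbounded. -/
theorem result : (∀ w : ℕ, 1 ≤ w →
    ∃ s : ℕ, IsGreatest {s : ℕ | 1 - (1 - (1 / 2 : ℝ) ^ w) ^ s ≤ 1 / 2} s ∧ 1 ≤ s ∧
      (w : ℝ) / 2 ≤ W1 (unif (Z s w)) (unif (A s w))) ∧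
    ¬ ∃ C : ℝ, ∀ w : ℕ, 1 ≤ w → ∀ s : ℕ,
      IsGreatest {s : ℕ | 1 - (1 - (1 / 2 : ℝ) ^ w) ^ s ≤ 1 / 2} s →
        W1 (unif (Z s w)) (unif (A s w)) ≤ C := by
  constructor
  · intro w hw
    obtain ⟨s, hs⟩ := exists_greatest w
    exact ⟨s, hs, main_bound hw hs⟩
  · rintro ⟨C, hC⟩
    obtain ⟨w, hw⟩ := exists_nat_gt (2 * max C 1)
    have h1 : (1 : ℝ) ≤ w := by
      have := le_max_right C 1
      linarith
    have hw1 : 1 ≤ w := by exact_mod_cast h1
    obtain ⟨s, hs⟩ := exists_greatest w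
    have h2 := hC w hw1 s hs
    have h3 := (main_bound hw1 hs).2
    have := le_max_left C 1
    linarith

end Pool.Agent.Results.MP_b6f08f_co.TribesUnbounded
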